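import Pool.Agent.Run7.h620.PD.AlmP

set_option autoImplicit false

/-!
# Palindromes with two digits and few prime factors

In every base `b ≥ 2` and for all digits `e ≠ 0`, `f ≠ e` the right order of magnitude (up to constants)
`2 ^ (K / 2) / K` of the palindromes with `K` digits, all of them `e` or `f`, has a bounded number of prime factors.

Proof. The palindromes are `n₀ + (f - e) ∑_{i ∈ S} (b ^ i + b ^ (K - 1 - i))`, so that their exponential sums are
products; consecutive factors cannot both be close to `1` at a place where the expansion of
`b (b ^ 2 - 1) (f - e) M θ` in balanced digits has a nonzero digit, and counting the nonzero digits of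
fractions with all denominators up to `exp (c K)` at once gives a positive level of distribution in
residue classes (`M` the modulus of a fixed residue class). The small primes are dealt with by a residue class
modulo `M` whose members are divisible by no high power of them; there is one since no class
modulo a high power of a prime contains many of the palindromes. Then the fundamental lemma.

`Nat.digits b n` is the list of the base `b` digits of `n`; `n.primeFactorsList` is the list of its prime
factors, with multiplicity.
-/

namespace Pool.Agent.Results.MP_e8d2ce_nt.TwoDigitAlmostPrimes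

open Finset Filter Polynomial

open Classical in
/-- **Almost prime palindromes with two digits.** -/
theorem result : ∀ b : ℕ, 2 ≤ b → ∀ e f : ℕ, e < b → f < b → e ≠ 0 → f ≠ e →
    ∃ c : ℝ, 0 < c ∧ ∃ r : ℕ, ∀ᶠ K : ℕ in atTop,
      c * (2 : ℝ) ^ ((K : ℝ) / 2) / K ≤
        (((Finset.range (b ^ K)).filter (fun n : ℕ =>
          (Nat.digits b n).length = K ∧ (Nat.digits b n).reverse = Nat.digits b n ∧
          (∀ d ∈ Nat.digits b n, d = e ∨ d = f) ∧ n.primeFactorsList.length ≤ r)).card : ℝ) := by
  intro b hb e f he hf he0 hef
  obtain ⟨c, hc, r, h⟩ := Pool.Agent.Run7.h620.PD.almost_primes b hb e f he hf he0 hef X (by rw [natDegree_X])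
  refine ⟨c, hc, r, ?_⟩
  filter_upwards [h] with K hK
  rw [natDegree_X, pow_one] at hK
  refine hK.trans ?_
  norm_cast
  apply card_le_card
  intro n hn
  rw [mem_filter] at hn ⊢
  obtain ⟨h1, h2, h3, h4, h5, h6⟩ := hn
  refine ⟨h1, h2, h3, h4, ?_⟩
  rw [eval_X, Int.natAbs_natCast, ArithmeticFunction.cardFactors_apply] at h6
  exact h6

end Pool.Agent.Results.MP_e8d2ce_nt.TwoDigitAlmostPrimes
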