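import Pool.Agent.Run7.h620.PD.Lin2

set_option autoImplicit false

/-!
# The pairs `q`, `2 q - 1` at palindromes with two digits

`q` runs over the palindromes with `K` base `b` digits, all of them `e` or `f` (about `2 ^ (K / 2)` numbers between
`b ^ (K - 1)` and `b ^ K`). The pairs `q`, `2 q - 1` are counted: from below those with a bounded number of prime
factors, from above the prime ones, in both cases with the expected order `2 ^ (K / 2) / K ^ 2`.

Proof: level of distribution of the palindromes with two digits (balanced digits of all fractions with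
denominators up to `exp (c K)` are counted at once), a residue class modulo a fixed number in which neither `q` nor
`2 q - 1` is divisible by a high power of a small prime, the fundamental lemma, Mertens.
-/

namespace Pool.Agent.Results.MP_39a890_nt.TwoDigitPalindromes

open Finset Filter

/-- `n` has exactly `K` base `b` digits, all of them `e` or `f`, and they read the same backwards. -/
def Pal (b e f K n : ℕ) : Prop :=
  (Nat.digits b n).length = K ∧ (Nat.digits b n).reverse = Nat.digits b n ∧ ∀ d ∈ Nat.digits b n, d = e ∨ d = f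

open Classical in
/-- **Almost primes `q`, `2 q - 1` and primes `q`, `2 q - 1` at palindromes with two digits.** -/
theorem result : ∀ b : ℕ, 2 ≤ b → ∀ e f : ℕ, e < b → f < b → e ≠ 0 → f ≠ e →
    ∃ c C : ℝ, 0 < c ∧ 0 < C ∧ ∃ r : ℕ, ∀ᶠ K : ℕ in atTop,
      c * (2 : ℝ) ^ ((K : ℝ) / 2) / (K : ℝ) ^ 2 ≤
        (((Finset.range (b ^ K)).filter (fun q : ℕ => Pal b e f K q ∧ q.primeFactorsList.length ≤ r ∧
          (2 * q - 1).primeFactorsList.length ≤ r)).card : ℝ) ∧
      (((Finset.range (b ^ K)).filter (fun q : ℕ => Pal b e f K q ∧ q.Prime ∧ (2 * q - 1).Prime)).card : ℝ) ≤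
        C * (2 : ℝ) ^ ((K : ℝ) / 2) / (K : ℝ) ^ 2 := by
  intro b hb e f he hf he0 hef
  obtain ⟨⟨c, hc, r, h1⟩, ⟨C, hC, h2⟩⟩ := Pool.Agent.Run7.h620.PD.lin_two b hb e f he hf he0 hef 2 (by norm_num)
    (fun i => if i = 0 then 1 else 2) (fun i => if i = 0 then 0 else -1)
    (fun i _ => by split_ifs <;> norm_num) (by
      intro i hi j hj hij
      split_ifs <;> omega)
  refine ⟨c, C, hc, hC, r, ?_⟩
  filter_upwards [h1, h2] with K hK1 hK2
  constructor
  · refine hK1.trans ?_
    have hle : ((Finset.range (b ^ K)).filter (fun n : ℕ => Pool.Agent.Run7.h620.PD.IsPal b e f K n ∧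
        ∀ i < 2, (if i = 0 then (1 : ℤ) else 2) * n + (if i = 0 then (0 : ℤ) else -1) ≠ 0 ∧
          ((if i = 0 then (1 : ℤ) else 2) * n + (if i = 0 then (0 : ℤ) else -1)).natAbs.primeFactorsList.length ≤ r)).card ≤
        ((Finset.range (b ^ K)).filter (fun q : ℕ => Pal b e f K q ∧ q.primeFactorsList.length ≤ r ∧
          (2 * q - 1).primeFactorsList.length ≤ r)).card := by
      apply card_le_card
      intro n hn
      rw [mem_filter] at hn ⊢
      obtain ⟨g1, g2, g3⟩ := hn
      have k0 := g3 0 (by norm_num)
      have k1 := g3 1 (by norm_num)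
      norm_num at k0 k1
      have e1 : (2 * (n : ℤ) + -1).natAbs = 2 * n - 1 := by omega
      rw [e1] at k1
      exact ⟨g1, g2, k0.2, k1.2⟩
    exact_mod_cast hle
  · refine le_trans ?_ hK2
    have hle : ((Finset.range (b ^ K)).filter (fun q : ℕ => Pal b e f K q ∧ q.Prime ∧ (2 * q - 1).Prime)).card ≤
        ((Finset.range (b ^ K)).filter (fun n : ℕ => Pool.Agent.Run7.h620.PD.IsPal b e f K n ∧
        ∀ i < 2, ((if i = 0 then (1 : ℤ) else 2) * n + (if i = 0 then (0 : ℤ) else -1)).natAbs.Prime)).card := by
      apply card_le_card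
      intro n hn
      rw [mem_filter] at hn ⊢
      obtain ⟨g1, g2, g3, g4⟩ := hn
      refine ⟨g1, g2, fun i hi => ?_⟩
      interval_cases i
      · norm_num
        exact g3
      · norm_num
        have e1 : (2 * (n : ℤ) + -1).natAbs = 2 * n - 1 := by
          have := g3.two_le
          omega
        rw [e1]
        exact g4
    exact_mod_cast hle

end Pool.Agent.Results.MP_39a890_nt.TwoDigitPalindromes
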