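import Pool.Agent.Run7.h620.PD.Pal2

set_option autoImplicit false

/-!
# Palindromic primes with two digits: an upper bound of the right order

The number of primes with exactly `K` base `b` digits which are palindromes and have no digits but `e` and `f` is
`O(2 ^ (K / 2) / K)`, uniformly in the digits `e ≠ f`. There are about `2 ^ (K / 2)` palindromes of this kind.

The palindromes are split into at most eight families `n₀ + (f - e) ∑_{i ∈ S} (b ^ i + b ^ (K - 1 - i))` with `S` free;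
these have a positive level of distribution in residue classes (the balanced digits of `b (b ^ 2 - 1) (f - e) a / q`
for all denominators up to `exp (c K)` are counted at once), and the fundamental lemma of the sieve and Mertens'
theorem give the bound.

`Nat.digits b n` is the list of the base `b` digits of `n`.
-/

namespace Pool.Agent.Results.MP_e8d2ce_nt.TwoDigitPrimesUpperBound

open Finset Filter Polynomial

open Pool.Agent.Run7.h620.PD in
open Classical in
lemma one (b : ℕ) (hb : 2 ≤ b) (e f : ℕ) (hef : f ≠ e) : ∃ C : ℝ, 0 < C ∧ ∀ K : ℕ, 1 ≤ K →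
      (((Finset.range (b ^ K)).filter (fun n : ℕ => n.Prime ∧
          (Nat.digits b n).length = K ∧ (Nat.digits b n).reverse = Nat.digits b n ∧
          ∀ d ∈ Nat.digits b n, d = e ∨ d = f)).card : ℝ) ≤ C * (2 : ℝ) ^ ((K : ℝ) / 2) / K := by
  obtain ⟨c, hc, N, M', hM', hev⟩ := poly_up b hb e f hef X (by rw [natDegree_X]) 1 (by rw [natDegree_X])
    (MertF_irr X irreducible_X (by rw [natDegree_X]; norm_num))
  obtain ⟨K₀, hK₀⟩ := eventually_atTop.1 hev
  refine ⟨c + (K₀ + 3) * (b : ℝ) ^ (K₀ + 3) + 1, by positivity, fun K hK1 => ?_⟩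
  have hKr : (1 : ℝ) ≤ K := by exact_mod_cast hK1
  have h2K : (1 : ℝ) ≤ (2 : ℝ) ^ ((K : ℝ) / 2) := Real.one_le_rpow (by norm_num) (by positivity)
  set Q := (Finset.range (b ^ K)).filter (fun n : ℕ => n.Prime ∧
          (Nat.digits b n).length = K ∧ (Nat.digits b n).reverse = Nat.digits b n ∧
          ∀ d ∈ Nat.digits b n, d = e ∨ d = f) with hQ
  have hbr : (1 : ℝ) ≤ b := by
    have : 1 ≤ b := by omega
    exact_mod_cast this
  rcases lt_or_ge K (K₀ + 3) with h | h
  · have h1 : (Q.card : ℝ) ≤ (b : ℝ) ^ (K₀ + 3) := by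
      have h2 : Q.card ≤ b ^ K := by
        refine (card_filter_le _ _).trans ?_
        rw [card_range]
      calc (Q.card : ℝ) ≤ (b : ℝ) ^ K := by exact_mod_cast h2
        _ ≤ _ := pow_le_pow_right₀ hbr h.le
    rw [le_div_iff₀ (by linarith)]
    have h3 : (K : ℝ) ≤ K₀ + 3 := by
      have : (K : ℝ) ≤ ((K₀ + 3 : ℕ) : ℝ) := by exact_mod_cast h.le
      push_cast at this
      exact this
    calc (Q.card : ℝ) * K ≤ (b : ℝ) ^ (K₀ + 3) * (K₀ + 3) := by gcongr
      _ ≤ (c + (K₀ + 3) * (b : ℝ) ^ (K₀ + 3) + 1) * 1 := by linarith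
      _ ≤ _ := by gcongr
  · have h1 := hK₀ K (by omega) Q (by
      intro n hn
      rw [hQ, mem_filter] at hn
      obtain ⟨hn1, hn2, hn3, hn4, hn5⟩ := hn
      refine ⟨⟨hn3, hn4, hn5⟩, fun p hp hpN hpK hpn => ?_⟩
      rw [eval_X] at hpn
      have h2 : p = n := (Nat.prime_dvd_prime_iff_eq hp hn2).1 (by exact_mod_cast hpn)
      have h3 : b ^ (K - 1) ≤ n := by
        have := Nat.base_pow_length_digits_le b n (by omega) hn2.ne_zero
        rw [hn3] at this
        have h4 : b ^ K = b * b ^ (K - 1) := by rw [← pow_succ']; congr 1; omega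
        rw [h4] at this
        exact Nat.le_of_mul_le_mul_left this (by omega)
      have h5 : 2 ^ ((K - 1) * 2) ≤ 2 ^ K := by
        calc 2 ^ ((K - 1) * 2) = (2 ^ (K - 1)) ^ 2 := by rw [pow_mul]
          _ ≤ (b ^ (K - 1)) ^ 2 := Nat.pow_le_pow_left (Nat.pow_le_pow_left hb _) _
          _ ≤ p ^ 2 := by rw [h2]; exact Nat.pow_le_pow_left h3 _
          _ ≤ p ^ M' := Nat.pow_le_pow_right hp.pos hM'
          _ ≤ 2 ^ K := hpK
      have h6 := (Nat.pow_le_pow_iff_right (by norm_num : 1 < 2)).1 h5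
      omega)
    rw [pow_one] at h1
    refine h1.trans ?_
    apply div_le_div_of_nonneg_right _ (by linarith)
    apply mul_le_mul_of_nonneg_right _ (by positivity)
    have : (0 : ℝ) ≤ (K₀ + 3) * (b : ℝ) ^ (K₀ + 3) := by positivity
    linarith

open Classical in
/-- **Palindromic primes with two digits, from above.** -/
theorem result : ∀ b : ℕ, 2 ≤ b → ∃ C : ℝ, 0 < C ∧ ∀ e f : ℕ, e < b → f < b → e ≠ f → ∀ K : ℕ, 1 ≤ K →
      (((Finset.range (b ^ K)).filter (fun n : ℕ => n.Prime ∧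
          (Nat.digits b n).length = K ∧ (Nat.digits b n).reverse = Nat.digits b n ∧
          ∀ d ∈ Nat.digits b n, d = e ∨ d = f)).card : ℝ) ≤ C * (2 : ℝ) ^ ((K : ℝ) / 2) / K := by
  intro b hb
  have h1 : ∀ x : ℕ × ℕ, ∃ C : ℝ, 0 < C ∧ (x.1 ≠ x.2 → ∀ K : ℕ, 1 ≤ K →
      (((Finset.range (b ^ K)).filter (fun n : ℕ => n.Prime ∧
          (Nat.digits b n).length = K ∧ (Nat.digits b n).reverse = Nat.digits b n ∧
          ∀ d ∈ Nat.digits b n, d = x.1 ∨ d = x.2)).card : ℝ) ≤ C * (2 : ℝ) ^ ((K : ℝ) / 2) / K) := by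
    intro x
    by_cases hx : x.1 = x.2
    · exact ⟨1, one_pos, fun h => absurd hx h⟩
    · obtain ⟨C, hC, h⟩ := one b hb x.1 x.2 (Ne.symm hx)
      exact ⟨C, hC, fun _ => h⟩
  choose C hC h using h1
  refine ⟨∑ x ∈ range b ×ˢ range b, C x, ?_, ?_⟩
  · apply sum_pos (fun x _ => hC x)
    have hb0 : 0 < b := by omega
    exact ⟨(0, 0), mem_product.2 ⟨mem_range.2 hb0, mem_range.2 hb0⟩⟩
  · intro e f he hf hef K hK
    refine (h (e, f) hef K hK).trans ?_
    have h2 : C (e, f) ≤ ∑ x ∈ range b ×ˢ range b, C x := by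
      apply single_le_sum (fun x _ => (hC x).le)
      rw [mem_product, mem_range, mem_range]
      exact ⟨he, hf⟩
    gcongr

end Pool.Agent.Results.MP_e8d2ce_nt.TwoDigitPrimesUpperBound
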